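import Pool.Agent.H507R3.LogPotL2

/-!
# A bounded discontinuous solution of `-Δu + b·∇u = 0` in the plane with `b ∈ L₂`

Let `v = ∑ 8^{-i} log (2R / |x - pᵢ|)` where the poles `pᵢ = (R / 2^{i+1}, 0)` tend to `0`.  Then
`u = 1 / (1 + v)` is a bounded solution of `-Δu + b·∇u = 0` in the disc `B_R` with the drift
`b = -2 ∇v / (1 + v)`, which is square integrable, and `u` is not continuous at `0`: it tends to `0` at
each pole `pᵢ`, but it is bounded below by a positive constant in the left half of the disc.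
-/

set_option autoImplicit false

namespace Pool.Agent.Results.MP_89b2fa_an.DiscontinuousSolution

open MeasureTheory Filter Topology Set Metric
open scoped RealInnerProductSpace ContDiff

/-- The Euclidean plane `ℝ²`. -/
abbrev Plane : Type := EuclideanSpace ℝ (Fin 2)

/-- `h ∈ C₀^∞(B)`. -/
structure IsTest (B : Set Plane) (h : Plane → ℝ) : Prop where
  smooth : ContDiff ℝ ∞ h
  compactSupport : HasCompactSupport h
  support_subset : tsupport h ⊆ B

/-- `G` is the weak gradient of `u` in `B`: `∫_B u ∂_e h = - ∫_B ⟨G, e⟩ h` for all `h ∈ C₀^∞(B)` and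
all directions `e`. -/
def IsWeakGradient (B : Set Plane) (u : Plane → ℝ) (G : Plane → Plane) : Prop :=
  ∀ h, IsTest B h → ∀ e : Plane, ∫ x in B, u x * fderiv ℝ h x e = -∫ x in B, ⟪G x, e⟫ * h x

/-- `u ∈ W₂¹(B_R)` and `u` is a solution of `-Δu + b·∇u = 0` in the disc `B_R`, that is
`∫_{B_R} ∇u·(∇h + b h) dx = 0` for all `h ∈ C₀^∞(B_R)`, where `∇u ∈ L₂(B_R)` is the weak gradient. -/
def IsSolution (R : ℝ) (b : Plane → Plane) (u : Plane → ℝ) : Prop :=
  MemLp u 2 (volume.restrict (ball 0 R)) ∧ ∃ G : Plane → Plane,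
    MemLp G 2 (volume.restrict (ball 0 R)) ∧ IsWeakGradient (ball 0 R) u G ∧
    ∀ h, IsTest (ball 0 R) h → ∫ x in ball 0 R, ⟪G x, gradient h x + h x • b x⟫ = 0

open Pool.Agent.H507R3

/-! ### The solution and the drift -/

/-- The solution. -/
noncomputable def uf (R : ℝ) (x : Plane) : ℝ := (1 + vp R x)⁻¹

/-- Its gradient. -/
noncomputable def Gf (R : ℝ) (x : Plane) : Plane := ((1 + vp R x) ^ 2)⁻¹ • gv R x

/-- The drift. -/
noncomputable def bf (R : ℝ) (x : Plane) : Plane := (2 / (1 + vp R x)) • gv R x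

variable {R : ℝ}

lemma measurable_uf (R : ℝ) : Measurable (uf R) := ((measurable_vp R).const_add 1).inv

lemma measurable_Gf (R : ℝ) : Measurable (Gf R) :=
  ((((measurable_vp R).const_add 1).pow_const 2).inv).smul (measurable_gv R)

lemma measurable_bf (R : ℝ) : Measurable (bf R) :=
  (measurable_const.div ((measurable_vp R).const_add 1)).smul (measurable_gv R)

lemma uf_nonneg (hR : 0 < R) {x : Plane} (hx : x ∈ ball (0 : Plane) R) : 0 ≤ uf R x := by
  have := vp_nonneg hR hx
  unfold uf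
  positivity

lemma uf_le_one (hR : 0 < R) {x : Plane} (hx : x ∈ ball (0 : Plane) R) : uf R x ≤ 1 := by
  have := vp_nonneg hR hx
  unfold uf
  apply inv_le_one_of_one_le₀
  linarith

lemma norm_Gf_le (hR : 0 < R) {x : Plane} (hx : x ∈ ball (0 : Plane) R) (hS : x ∉ Sx R) :
    ‖Gf R x‖ ≤ Mf R x := by
  have hv := vp_nonneg hR hx
  have h1 := norm_gv_le hR hS
  have h2 := Kf_nonneg R x
  rw [Gf, norm_smul, Real.norm_eq_abs, abs_of_nonneg (by positivity), Mf, div_eq_inv_mul]
  apply mul_le_mul _ h1 (norm_nonneg _) (by positivity)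
  apply inv_anti₀ (by positivity)
  nlinarith

lemma norm_bf_le (hR : 0 < R) {x : Plane} (hx : x ∈ ball (0 : Plane) R) (hS : x ∉ Sx R) :
    ‖bf R x‖ ≤ 2 * Mf R x := by
  have hv := vp_nonneg hR hx
  have h1 := norm_gv_le hR hS
  have h2 := Kf_nonneg R x
  rw [bf, norm_smul, Real.norm_eq_abs, abs_of_nonneg (by positivity), Mf]
  calc 2 / (1 + vp R x) * ‖gv R x‖ ≤ 2 / (1 + vp R x) * Kf R x := by gcongr
    _ = _ := by ring

lemma ae_good (R : ℝ) : ∀ᵐ x ∂(volume.restrict (ball (0 : Plane) R)),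
    x ∈ ball (0 : Plane) R ∧ x ∉ Sx R := by
  filter_upwards [ae_restrict_mem measurableSet_ball, ae_restrict_of_ae (ae_notMem_Sx R)]
    with x h1 h2 using ⟨h1, h2⟩

lemma memLp_Gf (hR : 0 < R) : MemLp (Gf R) 2 (volume.restrict (ball (0 : Plane) R)) := by
  refine (memLp_Mf hR).mono (measurable_Gf R).aestronglyMeasurable ?_
  filter_upwards [ae_good R] with x hx
  exact (norm_Gf_le hR hx.1 hx.2).trans (le_abs_self _)

lemma memLp_bf (hR : 0 < R) : MemLp (bf R) 2 (volume.restrict (ball (0 : Plane) R)) := by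
  refine ((memLp_Mf hR).const_mul 2).mono (measurable_bf R).aestronglyMeasurable ?_
  filter_upwards [ae_good R] with x hx
  exact (norm_bf_le hR hx.1 hx.2).trans (le_abs_self _)

lemma memLp_uf (hR : 0 < R) : MemLp (uf R) 2 (volume.restrict (ball (0 : Plane) R)) := by
  have hfin : IsFiniteMeasure (volume.restrict (ball (0 : Plane) R)) :=
    ⟨by rw [Measure.restrict_apply_univ]; exact measure_ball_lt_top⟩
  refine (memLp_const (1 : ℝ)).mono (measurable_uf R).aestronglyMeasurable ?_
  filter_upwards [ae_good R] with x hx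
  rw [Real.norm_eq_abs, abs_of_nonneg (uf_nonneg hR hx.1), norm_one]
  exact uf_le_one hR hx.1

/-! ### Derivatives -/

lemma hasFDerivAt_uf (hR : 0 < R) {x : Plane} (hx : x ∈ ball (0 : Plane) R) (hS : x ∉ Sx R) :
    HasFDerivAt (uf R) (innerSL ℝ (Gf R x)) x := by
  have hv := vp_nonneg hR hx
  have h1 := (hasFDerivAt_vp hR hS).const_add 1
  have h2 := (hasDerivAt_inv (show (1 + vp R x) ≠ 0 by positivity)).comp_hasFDerivAt x h1
  refine h2.congr_fderiv ?_
  ext w
  simp [Gf]

lemma hasFDerivAt_sq (hR : 0 < R) {x : Plane} (hx : x ∈ ball (0 : Plane) R) (hS : x ∉ Sx R) :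
    HasFDerivAt (fun y => ((1 + vp R y) ^ 2)⁻¹)
      (innerSL ℝ ((2 * ((1 + vp R x) ^ 3)⁻¹) • gv R x)) x := by
  have hv := vp_nonneg hR hx
  have h1 := (hasFDerivAt_vp hR hS).const_add 1
  have h3 : HasDerivAt (fun t : ℝ => (t ^ 2)⁻¹) (-(2 * ((1 + vp R x) ^ 3)⁻¹)) (1 + vp R x) := by
    have h4 := (hasDerivAt_pow 2 (1 + vp R x)).inv (show (1 + vp R x) ^ 2 ≠ 0 by positivity)
    refine h4.congr_deriv ?_
    have : (1 + vp R x) ≠ 0 := by positivity
    field_simp
    norm_num
    ring
  have h2 := h3.comp_hasFDerivAt x h1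
  refine h2.congr_fderiv ?_
  ext w
  simp

/-- The gradient of the product of `h` and `(1+v)^{-2}`. -/
noncomputable def Ph (R : ℝ) (h : Plane → ℝ) (x : Plane) : Plane :=
  ((1 + vp R x) ^ 2)⁻¹ • gradient h x + (h x * (2 * ((1 + vp R x) ^ 3)⁻¹)) • gv R x

lemma innerSL_gradient (h : Plane → ℝ) (x : Plane) : innerSL ℝ (gradient h x) = fderiv ℝ h x := by
  ext w
  rw [innerSL_apply_apply, ← toDual_gradient (𝕜 := ℝ), InnerProductSpace.toDual_apply_apply]

lemma inner_gradient (h : Plane → ℝ) (x w : Plane) : ⟪gradient h x, w⟫ = fderiv ℝ h x w := by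
  rw [← innerSL_gradient]; rfl

lemma zero_off {h : Plane → ℝ} {x : Plane} (hx : x ∉ tsupport h) :
    h x = 0 ∧ fderiv ℝ h x = 0 ∧ gradient h x = 0 := by
  have h1 : h x = 0 := image_eq_zero_of_notMem_tsupport hx
  have h2 : fderiv ℝ h x = 0 := by
    have : h =ᶠ[𝓝 x] fun _ => 0 := notMem_tsupport_iff_eventuallyEq.mp hx
    rw [this.fderiv_eq]
    exact fderiv_const_apply 0
  refine ⟨h1, h2, ?_⟩
  rw [gradient, h2, map_zero]

lemma hasFDerivAt_mul_off {h F : Plane → ℝ} {x : Plane} (hx : x ∉ tsupport h) :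
    HasFDerivAt (fun y => F y * h y) (0 : Plane →L[ℝ] ℝ) x := by
  have : (fun y => F y * h y) =ᶠ[𝓝 x] fun _ => 0 := by
    filter_upwards [notMem_tsupport_iff_eventuallyEq.mp hx] with y hy
    rw [hy]; simp
  exact (hasFDerivAt_const (0 : ℝ) x).congr_of_eventuallyEq this

lemma hasFDerivAt_phi (hR : 0 < R) {h : Plane → ℝ} (hh : IsTest (ball 0 R) h) {x : Plane}
    (hS : x ∉ Sx R) :
    HasFDerivAt (fun y => ((1 + vp R y) ^ 2)⁻¹ * h y) (innerSL ℝ (Ph R h x)) x := by
  by_cases hx : x ∈ tsupport h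
  · have hd : HasFDerivAt h (fderiv ℝ h x) x :=
      (hh.smooth.differentiable (by simp) x).hasFDerivAt
    refine ((hasFDerivAt_sq hR (hh.support_subset hx) hS).mul hd).congr_fderiv ?_
    rw [← innerSL_gradient]
    ext w
    simp [Ph]
    ring
  · obtain ⟨h1, h2, h3⟩ := zero_off hx
    refine (hasFDerivAt_mul_off hx).congr_fderiv ?_
    rw [Ph, h1, h3]
    simp

lemma hasFDerivAt_w (hR : 0 < R) {h : Plane → ℝ} (hh : IsTest (ball 0 R) h) {x : Plane}
    (hS : x ∉ Sx R) :
    HasFDerivAt (fun y => uf R y * h y) (uf R x • fderiv ℝ h x + h x • innerSL ℝ (Gf R x)) x := by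
  by_cases hx : x ∈ tsupport h
  · have hd : HasFDerivAt h (fderiv ℝ h x) x :=
      (hh.smooth.differentiable (by simp) x).hasFDerivAt
    exact ((hasFDerivAt_uf hR (hh.support_subset hx) hS).mul hd)
  · obtain ⟨h1, h2, h3⟩ := zero_off hx
    refine (hasFDerivAt_mul_off hx).congr_fderiv ?_
    rw [h1, h2]
    simp

/-! ### The weak gradient -/

lemma Sx_snd {x : Plane} (hx : x ∈ Sx R) : x 1 = 0 := by
  rcases hx with rfl | ⟨i, rfl⟩
  · rfl
  · simp [pt, mk2]

lemma mk2_notMem_of_snd {s t : ℝ} (ht : t ≠ 0) : mk2 (s, t) ∉ Sx R := fun h => by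
  have := Sx_snd h
  simp [mk2] at this
  exact ht this

lemma countable_fst (R : ℝ) : ((fun x : Plane => x 0) '' Sx R).Countable :=
  (countable_Sx R).image _

lemma mk2_notMem_of_fst {s t : ℝ} (hs : s ∉ (fun x : Plane => x 0) '' Sx R) :
    mk2 (s, t) ∉ Sx R := fun h => hs ⟨_, h, by simp [mk2]⟩

/-- The directional derivative of the product. -/
noncomputable def Wd (R : ℝ) (h : Plane → ℝ) (e x : Plane) : ℝ :=
  uf R x * fderiv ℝ h x e + ⟪Gf R x, e⟫ * h x

lemma hasCompactSupport_mul {h F : Plane → ℝ} (hc : HasCompactSupport h) :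
    HasCompactSupport (fun y => F y * h y) := hc.mul_left

lemma mk2_eq (s t : ℝ) : mk2 (s, t) = s • EuclideanSpace.single (0 : Fin 2) (1 : ℝ) +
    t • EuclideanSpace.single (1 : Fin 2) (1 : ℝ) := by
  ext i
  fin_cases i <;> simp [mk2]

lemma integral_Wd_zero (hR : 0 < R) {h : Plane → ℝ} (hh : IsTest (ball 0 R) h) :
    ∫ x, Wd R h (EuclideanSpace.single 0 1) x = 0 := by
  apply line_integral_zero (w := fun y => uf R y * h y) (N := {0}) (by simp)
  · intro t ht s
    have h1 := hasFDerivAt_w hR hh (mk2_notMem_of_snd (R := R) (s := s) (show t ≠ 0 from ht))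
    have h2 : HasDerivAt (fun s : ℝ => mk2 (s, t)) (EuclideanSpace.single 0 1) s := by
      simp_rw [mk2_eq]
      simpa using ((hasDerivAt_id s).smul_const (EuclideanSpace.single (0 : Fin 2) (1 : ℝ))).add_const
        (t • EuclideanSpace.single (1 : Fin 2) (1 : ℝ))
    have h3 := h1.comp_hasDerivAt s h2
    refine h3.congr_deriv ?_
    simp [Wd, mul_comm]
  · exact hasCompactSupport_mul hh.compactSupport

lemma integral_Wd_one (hR : 0 < R) {h : Plane → ℝ} (hh : IsTest (ball 0 R) h) :
    ∫ x, Wd R h (EuclideanSpace.single 1 1) x = 0 := by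
  apply line_integral_one (w := fun y => uf R y * h y) ((countable_fst R).measure_zero _)
  · intro s hs t
    have h1 := hasFDerivAt_w hR hh (mk2_notMem_of_fst (R := R) (t := t) hs)
    have h2 : HasDerivAt (fun t : ℝ => mk2 (s, t)) (EuclideanSpace.single 1 1) t := by
      simp_rw [mk2_eq]
      simpa using ((hasDerivAt_id t).smul_const (EuclideanSpace.single (1 : Fin 2) (1 : ℝ))).const_add
        (s • EuclideanSpace.single (0 : Fin 2) (1 : ℝ))
    have h3 := h1.comp_hasDerivAt t h2
    refine h3.congr_deriv ?_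
    simp [Wd, mul_comm]
  · exact hasCompactSupport_mul hh.compactSupport

lemma integrable_of_ball {F : Plane → ℝ} (hF : IntegrableOn F (ball 0 R))
    (h0 : ∀ x, x ∉ ball (0 : Plane) R → F x = 0) : Integrable F := by
  rwa [integrableOn_iff_integrable_of_support_subset] at hF
  intro x hx
  by_contra hcon
  exact hx (h0 x hcon)

lemma memLp_one_Mf (hR : 0 < R) : IntegrableOn (Mf R) (ball (0 : Plane) R) := by
  have hfin : IsFiniteMeasure (volume.restrict (ball (0 : Plane) R)) :=
    ⟨by rw [Measure.restrict_apply_univ]; exact measure_ball_lt_top⟩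
  exact (memLp_Mf hR).integrable (by norm_num)

lemma test_bounds {h : Plane → ℝ} (hh : IsTest (ball 0 R) h) :
    ∃ C : ℝ, 0 ≤ C ∧ (∀ x, |h x| ≤ C) ∧ ∀ x, ‖fderiv ℝ h x‖ ≤ C := by
  obtain ⟨C1, hC1⟩ := hh.compactSupport.exists_bound_of_continuous hh.smooth.continuous
  obtain ⟨C2, hC2⟩ := (hh.compactSupport.fderiv (𝕜 := ℝ)).exists_bound_of_continuous
    (hh.smooth.continuous_fderiv (by simp))
  refine ⟨max (max C1 C2) 0, le_max_right _ _, fun x => ?_, fun x => ?_⟩
  · exact (hC1 x).trans ((le_max_left _ _).trans (le_max_left _ _))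
  · exact (hC2 x).trans ((le_max_right _ _).trans (le_max_left _ _))

lemma test_zero {h : Plane → ℝ} (hh : IsTest (ball 0 R) h) {x : Plane}
    (hx : x ∉ ball (0 : Plane) R) : h x = 0 ∧ fderiv ℝ h x = 0 ∧ gradient h x = 0 :=
  zero_off fun hmem => hx (hh.support_subset hmem)

lemma integrable_u_fderiv (hR : 0 < R) {h : Plane → ℝ} (hh : IsTest (ball 0 R) h) (e : Plane) :
    Integrable (fun x => uf R x * fderiv ℝ h x e) := by
  obtain ⟨C, hC0, hC1, hC2⟩ := test_bounds hh
  have hfin : IsFiniteMeasure (volume.restrict (ball (0 : Plane) R)) :=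
    ⟨by rw [Measure.restrict_apply_univ]; exact measure_ball_lt_top⟩
  apply integrable_of_ball (R := R)
  · refine Integrable.mono' (integrable_const (C * ‖e‖)) ?_ ?_
    · apply Measurable.aestronglyMeasurable
      apply (measurable_uf R).mul
      exact ((hh.smooth.continuous_fderiv (by simp)).clm_apply continuous_const).measurable
    · filter_upwards [ae_good R] with x hx
      rw [norm_mul, Real.norm_eq_abs, abs_of_nonneg (uf_nonneg hR hx.1)]
      calc uf R x * ‖fderiv ℝ h x e‖ ≤ 1 * (C * ‖e‖) := by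
            apply mul_le_mul (uf_le_one hR hx.1) _ (norm_nonneg _) (by norm_num)
            exact ((fderiv ℝ h x).le_opNorm e).trans (by gcongr; exact hC2 x)
        _ = _ := one_mul _
  · intro x hx
    rw [(test_zero hh hx).2.1]; simp

lemma integrable_G_h (hR : 0 < R) {h : Plane → ℝ} (hh : IsTest (ball 0 R) h) (e : Plane) :
    Integrable (fun x => ⟪Gf R x, e⟫ * h x) := by
  obtain ⟨C, hC0, hC1, hC2⟩ := test_bounds hh
  apply integrable_of_ball (R := R)
  · refine Integrable.mono' ((memLp_one_Mf hR).mul_const (‖e‖ * C)) ?_ ?_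
    · apply Measurable.aestronglyMeasurable
      exact ((measurable_Gf R).inner measurable_const).mul hh.smooth.continuous.measurable
    · filter_upwards [ae_good R] with x hx
      rw [norm_mul]
      calc ‖⟪Gf R x, e⟫‖ * ‖h x‖ ≤ (‖Gf R x‖ * ‖e‖) * C := by
            apply mul_le_mul (norm_inner_le_norm _ _) (hC1 x) (abs_nonneg _) (by positivity)
        _ ≤ (Mf R x * ‖e‖) * C := by
            gcongr
            exact norm_Gf_le hR hx.1 hx.2
        _ = _ := by ring
  · intro x hx
    rw [(test_zero hh hx).1]; simp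

lemma integrable_Wd (hR : 0 < R) {h : Plane → ℝ} (hh : IsTest (ball 0 R) h) (e : Plane) :
    Integrable (Wd R h e) := (integrable_u_fderiv hR hh e).add (integrable_G_h hR hh e)

lemma Wd_lin (h : Plane → ℝ) (e x : Plane) :
    Wd R h e x = e 0 * Wd R h (EuclideanSpace.single 0 1) x +
      e 1 * Wd R h (EuclideanSpace.single 1 1) x := by
  have he : e = e 0 • EuclideanSpace.single 0 1 + e 1 • EuclideanSpace.single 1 1 := by
    ext i
    fin_cases i <;> simp
  conv_lhs => rw [he]
  simp only [Wd, map_add, map_smul, inner_add_right, inner_smul_right, smul_eq_mul]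
  ring

lemma integral_Wd (hR : 0 < R) {h : Plane → ℝ} (hh : IsTest (ball 0 R) h) (e : Plane) :
    ∫ x, Wd R h e x = 0 := by
  have : Wd R h e = fun x => e 0 * Wd R h (EuclideanSpace.single 0 1) x +
      e 1 * Wd R h (EuclideanSpace.single 1 1) x := funext fun x => Wd_lin h e x
  rw [this, integral_add ((integrable_Wd hR hh _).const_mul _) ((integrable_Wd hR hh _).const_mul _),
    integral_const_mul, integral_const_mul, integral_Wd_zero hR hh, integral_Wd_one hR hh]
  simp

lemma weakGradient (hR : 0 < R) : IsWeakGradient (ball 0 R) (uf R) (Gf R) := by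
  intro h hh e
  rw [setIntegral_eq_integral_of_forall_compl_eq_zero, setIntegral_eq_integral_of_forall_compl_eq_zero]
  · have h1 := integral_Wd hR hh e
    unfold Wd at h1
    rw [integral_add (integrable_u_fderiv hR hh e) (integrable_G_h hR hh e)] at h1
    linarith
  · intro x hx
    rw [(test_zero hh hx).1]; simp
  · intro x hx
    rw [(test_zero hh hx).2.1]; simp

/-! ### The equation -/

lemma measurable_Ph {h : Plane → ℝ} (hh : IsTest (ball 0 R) h) : Measurable (Ph R h) := by
  have hg : Measurable (gradient h) := by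
    have h1 : Continuous (fderiv ℝ h) := hh.smooth.continuous_fderiv (by simp)
    exact ((InnerProductSpace.toDual ℝ Plane).symm.continuous.comp h1).measurable
  have hv := measurable_vp R
  unfold Ph
  apply Measurable.add
  · exact (((hv.const_add 1).pow_const 2).inv).smul hg
  · exact (hh.smooth.continuous.measurable.mul
      ((((hv.const_add 1).pow_const 3).inv).const_mul 2)).smul (measurable_gv R)

lemma integrable_K_Ph (hR : 0 < R) {h : Plane → ℝ} (hh : IsTest (ball 0 R) h) :
    Integrable (fun x => Kf R x * ‖Ph R h x‖) := by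
  obtain ⟨C, hC0, hC1, hC2⟩ := test_bounds hh
  apply integrable_of_ball (R := R)
  · have hb : IntegrableOn (fun x => C * Mf R x + 2 * C * Mf R x ^ 2) (ball (0 : Plane) R) :=
      ((memLp_one_Mf hR).const_mul C).add
        (((memLp_two_iff_integrable_sq (measurable_Mf R).aestronglyMeasurable).mp
          (memLp_Mf hR)).const_mul (2 * C))
    refine Integrable.mono' hb ?_ ?_
    · exact ((measurable_Kf R).mul (measurable_Ph hh).norm).aestronglyMeasurable
    · filter_upwards [ae_good R] with x hx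
      have hv := vp_nonneg hR hx.1
      have hK := Kf_nonneg R x
      have hg := norm_gv_le hR hx.2
      have hgr : ‖gradient h x‖ ≤ C := by
        rw [gradient, LinearIsometryEquiv.norm_map]; exact hC2 x
      rw [norm_mul, norm_norm, Real.norm_eq_abs, abs_of_nonneg hK]
      have h1 : ‖Ph R h x‖ ≤ ((1 + vp R x) ^ 2)⁻¹ * C +
          (C * (2 * ((1 + vp R x) ^ 3)⁻¹)) * Kf R x := by
        unfold Ph
        refine (norm_add_le _ _).trans (add_le_add ?_ ?_)
        · rw [norm_smul, Real.norm_eq_abs, abs_of_nonneg (by positivity)]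
          gcongr
        · rw [norm_smul, norm_mul]
          have : ‖2 * ((1 + vp R x) ^ 3)⁻¹‖ = 2 * ((1 + vp R x) ^ 3)⁻¹ := by
            rw [Real.norm_eq_abs, abs_of_nonneg (by positivity)]
          rw [this]
          gcongr
          exact hC1 x
      have h2 : ((1 + vp R x) ^ 2)⁻¹ ≤ (1 + vp R x)⁻¹ := by
        apply inv_anti₀ (by positivity)
        nlinarith
      have h3 : ((1 + vp R x) ^ 3)⁻¹ ≤ ((1 + vp R x) ^ 2)⁻¹ := by
        apply inv_anti₀ (by positivity)
        have : 0 ≤ (1 + vp R x) ^ 2 := by positivity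
        nlinarith
      calc Kf R x * ‖Ph R h x‖ ≤ Kf R x * (((1 + vp R x) ^ 2)⁻¹ * C +
            (C * (2 * ((1 + vp R x) ^ 3)⁻¹)) * Kf R x) := by gcongr
        _ ≤ Kf R x * ((1 + vp R x)⁻¹ * C + (C * (2 * ((1 + vp R x) ^ 2)⁻¹)) * Kf R x) := by
            gcongr
        _ = C * Mf R x + 2 * C * Mf R x ^ 2 := by
            rw [Mf, div_pow]
            field_simp
  · intro x hx
    obtain ⟨h1, _, h3⟩ := test_zero hh hx
    rw [Ph, h1, h3]; simp

lemma om_notMem {c : Plane} (hc : c 1 = 0) {θ : ℝ} (hθ : θ ∈ Ioo (-Real.pi) Real.pi) (h0 : θ ≠ 0)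
    {r : ℝ} (hr : 0 < r) : c + r • om θ ∉ Sx R := by
  intro h
  have h1 := Sx_snd h
  simp only [om, PiLp.add_apply, PiLp.smul_apply, hc, zero_add, smul_eq_mul] at h1
  have h2 : Real.sin θ = 0 := by
    simpa [hr.ne'] using h1
  rw [Real.sin_eq_zero_iff_of_lt_of_lt hθ.1 hθ.2] at h2
  exact h0 h2

lemma tendsto_vp_pt (hR : 0 < R) (i : ℕ) :
    Tendsto (vp R) (𝓝[(Sx R)ᶜ] (pt R i)) atTop := by
  have h1 : Tendsto (fun x : Plane => ‖x - pt R i‖) (𝓝[(Sx R)ᶜ] (pt R i)) (𝓝[>] 0) := by
    rw [tendsto_nhdsWithin_iff]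
    constructor
    · have : Continuous fun x : Plane => ‖x - pt R i‖ := by fun_prop
      have h2 := this.tendsto (pt R i)
      rw [sub_self, norm_zero] at h2
      exact h2.mono_left nhdsWithin_le_nhds
    · filter_upwards [self_mem_nhdsWithin] with x hx
      rw [mem_Ioi, norm_pos_iff, sub_ne_zero]
      rintro rfl
      exact hx (mem_insert_of_mem _ (mem_range_self i))
  have h2 : Tendsto (fun r : ℝ => 2 * R / r) (𝓝[>] 0) atTop := by
    have := (tendsto_inv_nhdsGT_zero (𝕜 := ℝ)).const_mul_atTop (show 0 < 2 * R by positivity)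
    simpa [div_eq_mul_inv] using this
  have h3 : Tendsto (vt R i) (𝓝[(Sx R)ᶜ] (pt R i)) atTop :=
    (Real.tendsto_log_atTop.comp (h2.comp h1)).const_mul_atTop (dl_pos i)
  refine tendsto_atTop_mono' _ ?_ h3
  filter_upwards [self_mem_nhdsWithin, nhdsWithin_le_nhds (isOpen_ball.mem_nhds (pt_mem_ball hR i))]
    with x h4 h5 using vt_le_vp hR h5 h4 i

lemma pt_snd (i : ℕ) : pt R i 1 = 0 := Sx_snd (R := R) (mem_insert_of_mem _ (mem_range_self i))

lemma integral_term (hR : 0 < R) {h : Plane → ℝ} (hh : IsTest (ball 0 R) h) (i : ℕ) :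
    ∫ x, ⟪gt R i x, Ph R h x⟫ = 0 := by
  have h1 : ∫ x, ⟪(‖x - pt R i‖ ^ 2)⁻¹ • (x - pt R i), Ph R h x⟫ = 0 := by
    apply ray_integral (φ := fun y => ((1 + vp R y) ^ 2)⁻¹ * h y)
    · intro θ hθ hθ0 r hr
      exact hasFDerivAt_phi hR hh (om_notMem (pt_snd i) hθ hθ0 hr)
    · intro θ hθ hθ0
      obtain ⟨C, hC0, hC1, hC2⟩ := test_bounds hh
      have h2 : Tendsto (fun r : ℝ => pt R i + r • om θ) (𝓝[>] 0) (𝓝[(Sx R)ᶜ] (pt R i)) := by
        rw [tendsto_nhdsWithin_iff]
        constructor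
        · have : Continuous fun r : ℝ => pt R i + r • om θ := by fun_prop
          have h3 := this.tendsto 0
          rw [zero_smul, add_zero] at h3
          exact h3.mono_left nhdsWithin_le_nhds
        · filter_upwards [self_mem_nhdsWithin] with r hr
          exact om_notMem (pt_snd i) hθ hθ0 hr
      have h3 := (tendsto_atTop_add_const_left _ (1 : ℝ) ((tendsto_vp_pt hR i).comp h2))
      have h4 := (tendsto_pow_atTop (n := 2) (by norm_num)).comp h3
      have h5 := (tendsto_inv_atTop_zero.comp h4)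
      refine squeeze_zero_norm (a := fun r => ((1 + vp R (pt R i + r • om θ)) ^ 2)⁻¹ * C) ?_ ?_
      · intro r
        rw [norm_mul, Real.norm_eq_abs, abs_of_nonneg (by positivity)]
        gcongr
        exact hC1 _
      · simpa using h5.mul_const C
    · exact hasCompactSupport_mul hh.compactSupport
  have h2 : (fun x => ⟪gt R i x, Ph R h x⟫) =
      fun x => dl i * ⟪(‖x - pt R i‖ ^ 2)⁻¹ • (x - pt R i), Ph R h x⟫ := by
    funext x
    rw [gt, real_inner_smul_left]
  rw [h2, integral_const_mul, h1, mul_zero]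

lemma integral_total (hR : 0 < R) {h : Plane → ℝ} (hh : IsTest (ball 0 R) h) :
    ∫ x, ⟪gv R x, Ph R h x⟫ = 0 := by
  have key := hasSum_integral_of_dominated_convergence (μ := (volume : Measure Plane))
    (F := fun i x => ⟪gt R i x, Ph R h x⟫) (f := fun x => ⟪gv R x, Ph R h x⟫)
    (bound := fun i x => ‖gt R i x‖ * ‖Ph R h x‖)
    (fun i => ((measurable_gt R i).inner (measurable_Ph hh)).aestronglyMeasurable)
    (fun i => Eventually.of_forall fun x => norm_inner_le_norm _ _) ?_ ?_ ?_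
  · simp_rw [integral_term hR hh] at key
    exact key.unique hasSum_zero
  · filter_upwards [ae_notMem_Sx R] with x hx
    exact (summable_norm_gt hR hx).mul_right _
  · simp_rw [tsum_mul_right]
    exact integrable_K_Ph hR hh
  · filter_upwards [ae_notMem_Sx R] with x hx
    have h1 : HasSum (fun i => ⟪Ph R h x, gt R i x⟫) ⟪Ph R h x, gv R x⟫ :=
      (summable_gt hR hx).hasSum.mapL (innerSL ℝ (Ph R h x))
    have e1 : (fun i => ⟪gt R i x, Ph R h x⟫) = fun i => ⟪Ph R h x, gt R i x⟫ :=
      funext fun i => real_inner_comm _ _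
    rw [e1, real_inner_comm]
    exact h1

lemma equation (hR : 0 < R) {h : Plane → ℝ} (hh : IsTest (ball 0 R) h) :
    ∫ x in ball 0 R, ⟪Gf R x, gradient h x + h x • bf R x⟫ = 0 := by
  rw [setIntegral_eq_integral_of_forall_compl_eq_zero]
  · rw [← integral_total hR hh]
    congr 1
    funext x
    by_cases hx : x ∈ ball (0 : Plane) R
    · have hv := vp_nonneg hR hx
      simp only [Gf, bf, Ph, inner_add_right, inner_smul_right, inner_smul_left, conj_trivial]
      field_simp
    · obtain ⟨h1, _, h3⟩ := test_zero hh hx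
      rw [Ph, h1, h3]; simp
  · intro x hx
    obtain ⟨h1, _, h3⟩ := test_zero hh hx
    rw [h1, h3]; simp

/-! ### Discontinuity -/

/-- The bound for the potential in the left half of the disc. -/
noncomputable def Vb : ℝ := ∑' i : ℕ, dl i * ((i + 2) * Real.log 2)

lemma summable_Vb : Summable fun i : ℕ => dl i * ((i + 2) * Real.log 2) := by
  have h1 : Summable fun i : ℕ => (i : ℝ) ^ 1 * (1 / 8 : ℝ) ^ i :=
    summable_pow_mul_geometric_of_norm_lt_one 1 (by norm_num)
  have h2 := (h1.mul_right (Real.log 2)).add (summable_dl.mul_right (2 * Real.log 2))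
  refine h2.congr fun i => ?_
  rw [dl]
  ring

lemma vp_le_Vb (hR : 0 < R) {x : Plane} (hx0 : x 0 < 0) (hS : x ∉ Sx R) : vp R x ≤ Vb := by
  refine (summable_vt hR hS).tsum_le_tsum (fun i => ?_) summable_Vb
  rw [vt]
  apply mul_le_mul_of_nonneg_left _ (dl_pos i).le
  have h1 : R / 2 ^ (i + 1) ≤ ‖x - pt R i‖ := by
    have h2 : |(x - pt R i) 0| ≤ ‖x - pt R i‖ := by
      have := PiLp.norm_apply_le (x - pt R i) 0
      simpa using this
    refine le_trans ?_ h2
    have h3 : (x - pt R i) 0 = x 0 - R / 2 ^ (i + 1) := by simp [pt, mk2]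
    rw [h3, abs_sub_comm]
    refine le_trans ?_ (le_abs_self _)
    linarith
  have h4 : Real.log (2 * R / ‖x - pt R i‖) ≤ Real.log (2 ^ (i + 2)) := by
    have hpos : 0 < R / 2 ^ (i + 1) := by positivity
    apply Real.log_le_log (div_pos (by positivity) (lt_of_lt_of_le hpos h1))
    rw [div_le_iff₀ (lt_of_lt_of_le hpos h1)]
    calc 2 * R = 2 ^ (i + 2) * (R / 2 ^ (i + 1)) := by
          rw [pow_succ (2 : ℝ) (i + 1)]; field_simp
      _ ≤ _ := by gcongr
  rw [Real.log_pow] at h4
  push_cast at h4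
  exact h4

lemma not_continuous (hR : 0 < R) : ¬ ∃ g : Plane → ℝ, ContinuousOn g (ball 0 R) ∧
    ∀ᵐ x ∂volume.restrict (ball (0 : Plane) R), uf R x = g x := by
  rintro ⟨g, hg, hae⟩
  rw [ae_restrict_iff' measurableSet_ball] at hae
  set T : Set Plane := {x | (x ∈ ball (0 : Plane) R → uf R x = g x) ∧ x ∉ Sx R} with hT
  have hTd : Dense T := by
    apply Measure.dense_of_ae (μ := (volume : Measure Plane))
    filter_upwards [hae, ae_notMem_Sx R] with x h1 h2 using ⟨h1, h2⟩
  have hgc : ∀ x ∈ ball (0 : Plane) R, ContinuousAt g x := fun x hx =>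
    hg.continuousAt (isOpen_ball.mem_nhds hx)
  have h0 : ∀ i, g (pt R i) = 0 := by
    intro i
    have hb := pt_mem_ball hR i
    have hne : (𝓝[ball (0 : Plane) R ∩ T] (pt R i)).NeBot :=
      mem_closure_iff_nhdsWithin_neBot.mp (hTd.open_subset_closure_inter isOpen_ball hb)
    have h1 : Tendsto g (𝓝[ball (0 : Plane) R ∩ T] (pt R i)) (𝓝 (g (pt R i))) :=
      (hgc _ hb).tendsto.mono_left nhdsWithin_le_nhds
    have h2 : Tendsto (uf R) (𝓝[ball (0 : Plane) R ∩ T] (pt R i)) (𝓝 0) := by
      have h3 := (tendsto_vp_pt hR i).mono_left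
        (nhdsWithin_mono (pt R i) (show ball (0 : Plane) R ∩ T ⊆ (Sx R)ᶜ from fun x hx => hx.2.2))
      exact tendsto_inv_atTop_zero.comp (tendsto_atTop_add_const_left _ (1 : ℝ) h3)
    refine tendsto_nhds_unique (h1.congr' ?_) h2
    filter_upwards [self_mem_nhdsWithin] with x hx
    exact (hx.2.1 hx.1).symm
  have h00 : g 0 = 0 := by
    have h1 := (hgc 0 (mem_ball_self hR)).tendsto.comp (tendsto_pt hR)
    have h2 : (g ∘ pt R) = fun _ => 0 := funext h0
    rw [h2] at h1
    exact (tendsto_nhds_unique tendsto_const_nhds h1).symm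
  have hVb : 0 ≤ Vb := tsum_nonneg fun i => mul_nonneg (dl_pos i).le
    (mul_nonneg (by positivity) (Real.log_nonneg (by norm_num)))
  set L : Set Plane := ball (0 : Plane) R ∩ {x | x 0 < 0} with hL
  have hLo : IsOpen L := isOpen_ball.inter (isOpen_lt (by fun_prop) continuous_const)
  have hcl : (0 : Plane) ∈ closure (L ∩ T) := by
    have h1 : L ⊆ closure (L ∩ T) := hTd.open_subset_closure_inter hLo
    have h2 : (0 : Plane) ∈ closure L := by
      rw [Metric.mem_closure_iff]
      intro ε hε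
      set δ := min (ε / 2) (R / 2) with hδ
      have hδ0 : 0 < δ := by positivity
      refine ⟨mk2 (-δ, 0), ⟨?_, ?_⟩, ?_⟩
      · rw [mem_ball_zero_iff, norm_mk2_zero, abs_neg, abs_of_pos hδ0]
        have := min_le_right (ε / 2) (R / 2)
        linarith
      · simp only [mem_ofPred_eq, mk2]
        simpa using hδ0
      · rw [dist_zero_left, norm_mk2_zero, abs_neg, abs_of_pos hδ0]
        have := min_le_left (ε / 2) (R / 2)
        linarith
    exact closure_minimal h1 isClosed_closure h2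
  have hne : (𝓝[L ∩ T] (0 : Plane)).NeBot := mem_closure_iff_nhdsWithin_neBot.mp hcl
  have h1 : Tendsto g (𝓝[L ∩ T] (0 : Plane)) (𝓝 (g 0)) :=
    (hgc _ (mem_ball_self hR)).tendsto.mono_left nhdsWithin_le_nhds
  have h2 : (1 + Vb)⁻¹ ≤ g 0 := by
    refine ge_of_tendsto h1 ?_
    filter_upwards [self_mem_nhdsWithin] with x hx
    have hxb : x ∈ ball (0 : Plane) R := hx.1.1
    rw [← hx.2.1 hxb, uf]
    have h3 := vp_nonneg hR hxb
    have h4 := vp_le_Vb hR hx.1.2 hx.2.2
    apply inv_anti₀ (by positivity)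
    linarith
  rw [h00] at h2
  have : 0 < (1 + Vb)⁻¹ := by positivity
  linarith

/-- **Disproof of continuity.**  In every disc `B_R ⊂ ℝ²` there are a drift `b ∈ L₂(B_R; ℝ²)` and a
solution `u ∈ W₂¹(B_R) ∩ L_∞(B_R)` of `-Δu + b·∇u = 0` which coincides almost everywhere with no
function continuous on `B_R`. -/
theorem result (R : ℝ) (hR : 0 < R) : ∃ (b : Plane → Plane) (u : Plane → ℝ),
    Measurable b ∧ MemLp b 2 (volume.restrict (ball 0 R)) ∧ IsSolution R b u ∧
    (∀ x ∈ ball (0 : Plane) R, |u x| ≤ 1) ∧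
    ¬ ∃ g : Plane → ℝ, ContinuousOn g (ball 0 R) ∧
      ∀ᵐ x ∂volume.restrict (ball (0 : Plane) R), u x = g x := by
  refine ⟨bf R, uf R, measurable_bf R, memLp_bf hR, ⟨memLp_uf hR, Gf R, memLp_Gf hR,
    weakGradient hR, fun h hh => equation hR hh⟩, fun x hx => ?_, not_continuous hR⟩
  rw [abs_of_nonneg (uf_nonneg hR hx)]
  exact uf_le_one hR hx

end Pool.Agent.Results.MP_89b2fa_an.DiscontinuousSolution
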